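import Mathlib

/-!
# Random graphs sampled from graphons: definitions
-/

namespace Q299.Graphon

open MeasureTheory Filter Topology

variable {Ω : Type} [MeasurableSpace Ω]

/-- A graphon on `Ω`: a symmetric measurable function `Ω × Ω → [0, 1]`. -/
structure IsGraphon (W : Ω → Ω → ℝ) : Prop where
  meas : Measurable (Function.uncurry W)
  symm : ∀ x y, W x y = W y x
  nonneg : ∀ x y, 0 ≤ W x y
  le_one : ∀ x y, W x y ≤ 1

/-- The pairs `i < j` of elements of `[n]`. -/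
def pairs (n : ℕ) : Finset (Fin n × Fin n) := Finset.univ.filter (fun e => e.1 < e.2)

open Classical in
/-- The probability that the random graph `G(n, W)` is `G`, given the sampled points `X`. -/
noncomputable def condProb (W : Ω → Ω → ℝ) {n : ℕ} (X : Fin n → Ω) (G : SimpleGraph (Fin n)) : ℝ :=
  ∏ e ∈ pairs n, if G.Adj e.1 e.2 then W (X e.1) (X e.2) else 1 - W (X e.1) (X e.2)

open Classical in
/-- The probability that the random graph `G(n, W)` has the property `P`; the points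
`X_1, ..., X_n` are sampled independently from `μ`. -/
noncomputable def graphProb (μ : Measure Ω) (W : Ω → Ω → ℝ) (n : ℕ)
    (P : SimpleGraph (Fin n) → Prop) : ℝ :=
  ∫ X : Fin n → Ω, ∑ G : SimpleGraph (Fin n), (if P G then condProb W X G else 0)
    ∂(Measure.pi (fun _ => μ))

/-- `W` is connected. -/
def Connected (μ : Measure Ω) (W : Ω → Ω → ℝ) : Prop :=
  ∀ S : Set Ω, MeasurableSet S → 0 < μ S → 0 < μ Sᶜ →
    0 < ∫ z in S ×ˢ Sᶜ, W z.1 z.2 ∂(μ.prod μ)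

/-- Degree function. -/
noncomputable def deg (μ : Measure Ω) (W : Ω → Ω → ℝ) (x : Ω) : ℝ := ∫ y, W x y ∂μ

/-- Points of degree at most `α`. -/
def lowDeg (μ : Measure Ω) (W : Ω → Ω → ℝ) (α : ℝ) : Set Ω := {x | deg μ W x ≤ α}

/-- Condition (ii): `μ (D_W(α)) / α → ∞` as `α ↘ 0`. -/
def ManyLowDeg (μ : Measure Ω) (W : Ω → Ω → ℝ) : Prop :=
  Tendsto (fun α : ℝ => μ.real (lowDeg μ W α) / α) (𝓝[>] 0) atTop

/-- Condition (iii): `W` has a narrow peninsula. -/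
def NarrowPeninsula (μ : Measure Ω) (W : Ω → Ω → ℝ) : Prop :=
  ∃ (a : ℝ) (A B : Set Ω), 0 < a ∧ a ≤ 1 / 2 ∧ MeasurableSet A ∧ MeasurableSet B ∧ Disjoint A B ∧
    a < μ.real A ∧ μ.real B = 1 - 2 * a ∧
    ∀ᵐ z ∂(μ.prod μ), z.1 ∈ A → z.2 ∈ A ∪ B → W z.1 z.2 = 0

/-- Condition (iv): `W` is bipartite with two parts of measure `1 / 2`. -/
def BalancedBipartite (μ : Measure Ω) (W : Ω → Ω → ℝ) : Prop :=
  ∃ S : Set Ω, MeasurableSet S ∧ μ.real S = 1 / 2 ∧ μ.real Sᶜ = 1 / 2 ∧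
    ∀ᵐ z ∂(μ.prod μ), ((z.1 ∈ S ∧ z.2 ∈ S) ∨ (z.1 ∈ Sᶜ ∧ z.2 ∈ Sᶜ)) → W z.1 z.2 = 0

end Q299.Graphon
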