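import Pool.Agent.Q299.Graphon.Seq

/-!
# Hamilton cycles are unlikely for the counterexample graphon
-/

set_option linter.unusedSectionVars false

namespace Q299.Graphon

open Finset MeasureTheory Filter Topology

/-- window ends -/
noncomputable def N (k : ℕ) : ℝ := lam k / (2 * s k ^ 2)

lemma half_of_succ (k : ℕ) : s (k + 1) ≤ 1 / 2 := by
  have := s_succ_le k
  have := s_le_one k
  linarith

lemma exp_lam (k : ℕ) : Real.exp (lam k) = 1 / s k := by
  unfold lam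
  rw [Real.exp_neg, Real.exp_log (s_pos k), one_div]

lemma lam_mul_s_le (k : ℕ) : lam k * s k ≤ 1 := by
  have h1 := Real.add_one_le_exp (lam k)
  rw [exp_lam] at h1
  have h2 := s_pos k
  have h3 : (lam k + 1) * s k ≤ 1 / s k * s k := mul_le_mul_of_nonneg_right h1 h2.le
  rw [one_div, inv_mul_cancel₀ h2.ne'] at h3
  nlinarith

/-- error term -/
noncomputable def eps (k : ℕ) : ℝ :=
  64 / √(lam k) + 2 * Real.exp (-(lam (k + 1) / 3)) +
    (Real.exp (s (k + 1)) / (1 - s (k + 1) ^ 2) ^ 2 - 1)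

lemma one_sub_pow_ge {a : ℝ} (ha0 : 0 ≤ a) (ha1 : a ≤ 1 / 4) (n : ℕ) :
    Real.exp (-(4 / 3 * (a * n))) ≤ (1 - a) ^ n := by
  have h1 : Real.exp (-(4 / 3 * a)) ≤ 1 - a := by
    have h2 : (1 - a)⁻¹ ≤ Real.exp (4 / 3 * a) := by
      refine le_trans ?_ (Real.add_one_le_exp _)
      rw [inv_le_iff_one_le_mul₀ (by linarith)]
      nlinarith
    rw [Real.exp_neg]
    have h3 : 0 < 1 - a := by linarith
    exact inv_le_of_inv_le₀ h3 h2
  calc Real.exp (-(4 / 3 * (a * n))) = Real.exp (-(4 / 3 * a)) ^ n := by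
        rw [← Real.exp_nat_mul]
        congr 1
        ring
    _ ≤ _ := pow_le_pow_left₀ (Real.exp_pos _).le h1 n

lemma second_term {n : ℕ} (hn : 2 ≤ n) {a b w q t l : ℝ} (ha : a = t ^ 2) (ht0 : 0 < t)
    (ha4 : a ≤ 1 / 4) (hb1 : 1 - a ≤ b) (hw0 : 0 < w) (hq0 : 0 ≤ q) (hq : q ≤ b ^ 2 + a ^ 2)
    (hl : l * t ≤ 1) (hnl : (n : ℝ) * (2 * a) ≤ l) :
    (1 / ((n : ℝ) * (w * b ^ (n - 1)))) ^ 2 *
      (n * (((n - 1 : ℕ) : ℝ) * ((1 - a ^ 2) * (w ^ 2 * q ^ (n - 2))))) ≤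
      Real.exp t / (1 - t ^ 2) ^ 2 := by
  have ha0 : 0 < a := by rw [ha]; exact pow_pos ht0 2
  have hb0 : 0 < b := by linarith
  have hb34 : 3 / 4 ≤ b := by linarith
  have hnr : (2 : ℝ) ≤ n := by exact_mod_cast hn
  set A := (n : ℝ) * (w * b ^ (n - 1)) with hA
  have hA0 : 0 < A := by positivity
  have hn1 : (((n - 1 : ℕ) : ℝ)) ≤ n := by exact_mod_cast Nat.sub_le _ _
  have c1 : n * (((n - 1 : ℕ) : ℝ) * ((1 - a ^ 2) * (w ^ 2 * q ^ (n - 2)))) ≤
      n * (n * (1 * (w ^ 2 * (b ^ 2 + a ^ 2) ^ (n - 2)))) := by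
    have h0 : 0 ≤ 1 - a ^ 2 := by nlinarith
    have h1 : 1 - a ^ 2 ≤ 1 := by linarith [sq_nonneg a]
    have h2 : q ^ (n - 2) ≤ (b ^ 2 + a ^ 2) ^ (n - 2) := pow_le_pow_left₀ hq0 hq _
    have h3 : w ^ 2 * q ^ (n - 2) ≤ w ^ 2 * (b ^ 2 + a ^ 2) ^ (n - 2) :=
      mul_le_mul_of_nonneg_left h2 (sq_nonneg w)
    have h4 : 0 ≤ w ^ 2 * q ^ (n - 2) := by positivity
    have h5 : (1 - a ^ 2) * (w ^ 2 * q ^ (n - 2)) ≤ 1 * (w ^ 2 * (b ^ 2 + a ^ 2) ^ (n - 2)) :=
      mul_le_mul h1 h3 h4 zero_le_one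
    have h6 : 0 ≤ (1 - a ^ 2) * (w ^ 2 * q ^ (n - 2)) := mul_nonneg h0 h4
    have h7 : ((n - 1 : ℕ) : ℝ) * ((1 - a ^ 2) * (w ^ 2 * q ^ (n - 2))) ≤
        n * (1 * (w ^ 2 * (b ^ 2 + a ^ 2) ^ (n - 2))) :=
      mul_le_mul hn1 h5 h6 (by linarith)
    exact mul_le_mul_of_nonneg_left h7 (by linarith)
  have c2 : (b ^ 2 + a ^ 2) ^ (n - 2) ≤ b ^ (2 * (n - 2)) * Real.exp t := by
    have c3 : b ^ 2 + a ^ 2 ≤ b ^ 2 * Real.exp (2 * a ^ 2) := by
      have c4 := Real.add_one_le_exp (2 * a ^ 2)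
      have c5 : b ^ 2 * (2 * a ^ 2 + 1) ≤ b ^ 2 * Real.exp (2 * a ^ 2) :=
        mul_le_mul_of_nonneg_left c4 (sq_nonneg b)
      have c6 : (1 : ℝ) / 2 ≤ b ^ 2 := by nlinarith
      nlinarith [sq_nonneg a]
    calc (b ^ 2 + a ^ 2) ^ (n - 2) ≤ (b ^ 2 * Real.exp (2 * a ^ 2)) ^ (n - 2) :=
          pow_le_pow_left₀ (by positivity) c3 _
      _ = b ^ (2 * (n - 2)) * Real.exp (((n - 2 : ℕ) : ℝ) * (2 * a ^ 2)) := by
          rw [mul_pow, ← pow_mul, Real.exp_nat_mul]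
      _ ≤ _ := by
          apply mul_le_mul_of_nonneg_left _ (by positivity)
          apply Real.exp_le_exp.2
          have hn2 : (((n - 2 : ℕ) : ℝ)) ≤ n := by exact_mod_cast Nat.sub_le _ _
          have d1 : ((n - 2 : ℕ) : ℝ) * (2 * a ^ 2) ≤ n * (2 * a ^ 2) :=
            mul_le_mul_of_nonneg_right hn2 (by positivity)
          have d3 : (n : ℝ) * (2 * a ^ 2) ≤ l * a := by
            calc (n : ℝ) * (2 * a ^ 2) = (n : ℝ) * (2 * a) * a := by ring
              _ ≤ _ := mul_le_mul_of_nonneg_right hnl ha0.le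
          have d4 : l * a ≤ t := by
            calc l * a = (l * t) * t := by rw [ha]; ring
              _ ≤ 1 * t := mul_le_mul_of_nonneg_right hl ht0.le
              _ = t := one_mul _
          linarith
  have c7 : b ^ (2 * (n - 2)) * b ^ 2 = (b ^ (n - 1)) ^ 2 := by
    rw [← pow_add, ← pow_mul]
    congr 1
    omega
  have hbp : 0 < b ^ (n - 1) := pow_pos hb0 _
  calc (1 / A) ^ 2 * (n * (((n - 1 : ℕ) : ℝ) * ((1 - a ^ 2) * (w ^ 2 * q ^ (n - 2)))))
      ≤ (1 / A) ^ 2 * (n * (n * (1 * (w ^ 2 * (b ^ (2 * (n - 2)) * Real.exp t))))) := by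
        apply mul_le_mul_of_nonneg_left _ (sq_nonneg _)
        refine c1.trans ?_
        gcongr
    _ = Real.exp t / b ^ 2 := by
        rw [eq_div_iff (by positivity)]
        have h1 : (1 / A) ^ 2 * (n * (n * (1 * (w ^ 2 * (b ^ (2 * (n - 2)) * Real.exp t))))) * b ^ 2 =
            (1 / A) ^ 2 * (n ^ 2 * w ^ 2 * (b ^ (2 * (n - 2)) * b ^ 2)) * Real.exp t := by ring
        have h2 : (n : ℝ) ^ 2 * w ^ 2 * (b ^ (n - 1)) ^ 2 = A ^ 2 := by rw [hA]; ring
        rw [h1, c7, h2, div_pow, one_pow, one_div, inv_mul_cancel₀ (by positivity), one_mul]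
    _ ≤ _ := by
        have e1 : (0 : ℝ) < 1 - t ^ 2 := by rw [← ha]; linarith
        have e2 : (1 - t ^ 2) ^ 2 ≤ b ^ 2 := pow_le_pow_left₀ e1.le (by rw [← ha]; exact hb1) 2
        gcongr

lemma first_term {n : ℕ} (hn : 2 ≤ n) {a b w t l l' N' : ℝ} (ha : a = t ^ 2) (ht0 : 0 < t)
    (ha4 : a ≤ 1 / 4) (hb1 : 1 - a ≤ b) (hw0 : t / 2 ≤ w) (hl : 4 / 3 ≤ l)
    (hN : N' * t = l / (2 * √(4 + l))) (hNn : N' ≤ n) (hl' : Real.exp l' = 1 / t)
    (hnl : (n : ℝ) * (2 * a) ≤ l') :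
    1 / ((n : ℝ) * (w * b ^ (n - 1))) ≤ 64 / √l + 2 * Real.exp (-(l' / 3)) := by
  have ha0 : 0 < a := by rw [ha]; exact pow_pos ht0 2
  have hb0 : 0 < b := by linarith
  have hnr : (2 : ℝ) ≤ n := by exact_mod_cast hn
  have hw00 : 0 < w := by linarith
  set A := (n : ℝ) * (w * b ^ (n - 1)) with hA
  have hA0 : 0 < A := by positivity
  have hlk : 0 < l := by linarith
  have hexp : Real.exp (-(4 / 3 * (a * n))) ≤ b ^ (n - 1) := by
    calc Real.exp (-(4 / 3 * (a * n))) ≤ (1 - a) ^ n := one_sub_pow_ge ha0.le ha4 n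
      _ ≤ (1 - a) ^ (n - 1) := pow_le_pow_of_le_one (by linarith) (by linarith) (Nat.sub_le _ _)
      _ ≤ _ := pow_le_pow_left₀ (by linarith) hb1 _
  have hAge : (n : ℝ) * (t / 2 * Real.exp (-(4 / 3 * (a * n)))) ≤ A := by
    rw [hA]
    gcongr
  by_cases hc : a * n ≤ 1
  · have e1 : (1 : ℝ) / 8 ≤ Real.exp (-(4 / 3 * (a * n))) := by
      have e2 : Real.exp (4 / 3 * (a * n)) ≤ 8 := by
        calc Real.exp (4 / 3 * (a * n)) ≤ Real.exp 2 := Real.exp_le_exp.2 (by linarith)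
          _ = Real.exp 1 ^ 2 := by rw [← Real.exp_nat_mul]; norm_num
          _ ≤ 2.7182818286 ^ 2 := pow_le_pow_left₀ (Real.exp_pos _).le Real.exp_one_lt_d9.le 2
          _ ≤ 8 := by norm_num
      rw [Real.exp_neg, one_div]
      exact inv_anti₀ (Real.exp_pos _) e2
    have e3 : √l / 64 ≤ A := by
      refine le_trans ?_ hAge
      have e4 : √l / 4 ≤ (n : ℝ) * t := by
        have e6 : √l / 4 ≤ N' * t := by
          rw [hN]
          have e7 : √(4 + l) ≤ 2 * √l := by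
            rw [show (2 : ℝ) * √l = √(4 * l) by
              rw [Real.sqrt_mul (by norm_num)]
              congr 1
              rw [show (4 : ℝ) = 2 ^ 2 by norm_num]
              exact (Real.sqrt_sq (by norm_num)).symm]
            apply Real.sqrt_le_sqrt
            linarith
          have e8 : 0 < √l := Real.sqrt_pos.2 hlk
          have e9 : 0 < √(4 + l) := Real.sqrt_pos.2 (by linarith)
          rw [div_le_div_iff₀ (by norm_num) (by linarith)]
          have e10 : √l * √l = l := Real.mul_self_sqrt hlk.le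
          nlinarith
        exact e6.trans (mul_le_mul_of_nonneg_right hNn ht0.le)
      calc √l / 64 = (√l / 4) * (1 / 2 * (1 / 8)) := by ring
        _ ≤ ((n : ℝ) * t) * (1 / 2 * Real.exp (-(4 / 3 * (a * n)))) := by gcongr
        _ = _ := by ring
    have e8 : 0 < √l := Real.sqrt_pos.2 hlk
    have e9 : 1 / A ≤ 64 / √l := by
      rw [div_le_div_iff₀ hA0 e8]
      linarith
    have := Real.exp_pos (-(l' / 3))
    linarith
  · push Not at hc
    have e1 : a * n ≤ l' / 2 := by linarith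
    have e2 : 1 / t ≤ (n : ℝ) * t := by
      rw [div_le_iff₀ ht0]
      rw [ha] at hc
      linarith
    have e3 : Real.exp (l' / 3) / 2 ≤ A := by
      refine le_trans ?_ hAge
      have e4 : Real.exp (-(2 / 3 * l')) ≤ Real.exp (-(4 / 3 * (a * n))) :=
        Real.exp_le_exp.2 (by linarith)
      calc Real.exp (l' / 3) / 2
          = Real.exp l' * (1 / 2 * Real.exp (-(2 / 3 * l'))) := by
            have : l' / 3 = l' + -(2 / 3 * l') := by ring
            rw [this, Real.exp_add]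
            ring
        _ ≤ ((n : ℝ) * t) * (1 / 2 * Real.exp (-(4 / 3 * (a * n)))) := by
            rw [hl']
            gcongr
        _ = _ := by ring
    have e6 : 1 / A ≤ 2 * Real.exp (-(l' / 3)) := by
      rw [Real.exp_neg, ← div_eq_mul_inv, div_le_div_iff₀ hA0 (Real.exp_pos _)]
      linarith
    have : 0 ≤ 64 / √l := by positivity
    linarith

lemma int_one (a : ℝ) : ∫ x, (1 - a * gg x) ∂μ0 = 1 - a * m := by
  rw [integral_sub (integrable_const 1) (integrable_gg.const_mul a), integral_const_mul]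
  simp [m]

lemma int_sq (a : ℝ) : ∫ x, (1 - a * gg x) ^ 2 ∂μ0 ≤ (1 - a * m) ^ 2 + a ^ 2 := by
  have hsq : Integrable (fun x => gg x ^ 2) μ0 :=
    integrable_bdd (measurable_gg.pow_const 2) 1 (fun x => by
      rw [abs_pow, abs_of_pos (gg_pos x)]
      exact pow_le_one₀ (gg_pos x).le (gg_le_one x))
  have e1 : ∫ x, (1 - a * gg x) ^ 2 ∂μ0 = ∫ x, ((1 - 2 * a * gg x) + a ^ 2 * gg x ^ 2) ∂μ0 := by
    congr 1
    funext x
    ring
  have e2 : ∫ x, ((1 - 2 * a * gg x) + a ^ 2 * gg x ^ 2) ∂μ0 =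
      ∫ x, (1 - 2 * a * gg x) ∂μ0 + ∫ x, a ^ 2 * gg x ^ 2 ∂μ0 :=
    integral_add ((integrable_const 1).sub (integrable_gg.const_mul _)) (hsq.const_mul _)
  have e3 : ∫ x, (1 - 2 * a * gg x) ∂μ0 = 1 - 2 * a * m := by
    rw [integral_sub (integrable_const 1) (integrable_gg.const_mul _), integral_const_mul]
    simp [m]
  have e4 : ∫ x, gg x ^ 2 ∂μ0 ≤ 1 := by
    have h : ∫ x, gg x ^ 2 ∂μ0 ≤ ∫ _x : ℝ, (1 : ℝ) ∂μ0 :=
      integral_mono hsq (integrable_const 1) (fun x => pow_le_one₀ (gg_pos x).le (gg_le_one x))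
    simpa using h
  rw [e1, e2, e3, integral_const_mul]
  have e5 : a ^ 2 * ∫ x, gg x ^ 2 ∂μ0 ≤ a ^ 2 * 1 :=
    mul_le_mul_of_nonneg_left e4 (sq_nonneg a)
  have e6 : (1 - a * m) ^ 2 = 1 - 2 * a * m + a ^ 2 * m ^ 2 := by ring
  rw [e6]
  have := mul_nonneg (sq_nonneg a) (sq_nonneg m)
  linarith

lemma combine {P A X E1 E2 : ℝ} (hA : 0 < A)
    (h : P ≤ 1 - 2 * (1 / A) * A + (1 / A) ^ 2 * (A + X)) (h1 : 1 / A ≤ E1)
    (h2 : (1 / A) ^ 2 * X ≤ E2) : P ≤ E1 + (E2 - 1) := by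
  have hAA : 2 * (1 / A) * A = 2 := by field_simp
  have hAA2 : (1 / A) ^ 2 * (A + X) = 1 / A + (1 / A) ^ 2 * X := by
    rw [mul_add]
    congr 1
    field_simp
  rw [hAA, hAA2] at h
  linarith

theorem ham_window (k : ℕ) (hlam : 4 / 3 ≤ lam k) (n : ℕ) (hn : 2 ≤ n) (h1 : N k ≤ n)
    (h2 : (n : ℝ) ≤ N (k + 1)) :
    graphProb μ0 W0 n (fun G => G.IsHamiltonian) ≤ eps k := by
  have ht0 : 0 < s (k + 1) := s_pos _
  have ht2 : s (k + 1) ≤ 1 / 2 := half_of_succ k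
  have ha0 : 0 < s (k + 1) ^ 2 := pow_pos ht0 2
  have ha4 : s (k + 1) ^ 2 ≤ 1 / 4 := by nlinarith
  have hw2 : s (k + 1) / 2 ≤ s (k + 1) - s (k + 2) := by
    have := s_succ_le (k + 1)
    linarith
  have hw0 : 0 < s (k + 1) - s (k + 2) := by linarith
  have hnr : (2 : ℝ) ≤ n := by exact_mod_cast hn
  have hm1 := m_le_one
  have hm2 := half_le_m
  have hb1 : 1 - s (k + 1) ^ 2 ≤ 1 - s (k + 1) ^ 2 * m := by nlinarith
  have hb0 : 0 < 1 - s (k + 1) ^ 2 * m := by linarith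
  have hwreal : μ0.real (Set.Ioc (s (k + 1 + 1)) (s (k + 1))) = s (k + 1) - s (k + 2) :=
    real_level (k + 1)
  have hnl : (n : ℝ) * (2 * s (k + 1) ^ 2) ≤ lam (k + 1) := by
    unfold N at h2
    rwa [le_div_iff₀ (by positivity)] at h2
  have hN : N k * s (k + 1) = lam k / (2 * √(4 + lam k)) := by
    unfold N
    rw [s_succ]
    have := s_pos k
    have := two_le_sqrt k
    field_simp
  have hA0 : 0 < (n : ℝ) * ((s (k + 1) - s (k + 2)) * (1 - s (k + 1) ^ 2 * m) ^ (n - 1)) := by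
    positivity
  have key := ham_le (μ := μ0) (g := gg) (a := s (k + 1) ^ 2)
    (Λ := Set.Ioc (s (k + 1 + 1)) (s (k + 1))) (n := n) hn
    measurableSet_Ioc measurable_gg (fun x => (gg_pos x).le) gg_le_one ha0.le (by linarith)
    (fun x hx => gg_eq (k + 1) x hx)
    (1 / ((n : ℝ) * ((s (k + 1) - s (k + 2)) * (1 - s (k + 1) ^ 2 * m) ^ (n - 1))))
  rw [int_one, hwreal] at key
  have R1 := second_term hn (a := s (k + 1) ^ 2) (b := 1 - s (k + 1) ^ 2 * m)
    (w := s (k + 1) - s (k + 2)) (q := ∫ x, (1 - s (k + 1) ^ 2 * gg x) ^ 2 ∂μ0) (t := s (k + 1))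
    (l := lam (k + 1)) rfl ht0 ha4 hb1 hw0 (integral_nonneg fun x => sq_nonneg _) (int_sq _)
    (lam_mul_s_le _) hnl
  have R2 := first_term hn (a := s (k + 1) ^ 2) (b := 1 - s (k + 1) ^ 2 * m)
    (w := s (k + 1) - s (k + 2)) (t := s (k + 1)) (l := lam k) (l' := lam (k + 1)) (N' := N k)
    rfl ht0 ha4 hb1 hw2 hlam hN h1 (exp_lam _) hnl
  exact combine hA0 key R2 R1

lemma eps_tendsto : Tendsto eps atTop (𝓝 0) := by
  have h1 : Tendsto (fun k => 64 / √(lam k)) atTop (𝓝 0) :=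
    Tendsto.div_atTop tendsto_const_nhds (Real.tendsto_sqrt_atTop.comp lam_tendsto)
  have hl1 := lam_tendsto.comp (tendsto_add_atTop_nat 1)
  have h2 : Tendsto (fun k => 2 * Real.exp (-(lam (k + 1) / 3))) atTop (𝓝 0) := by
    have h3 : Tendsto (fun k => lam (k + 1) / 3) atTop atTop := hl1.atTop_div_const (by norm_num)
    have := (Real.tendsto_exp_neg_atTop_nhds_zero.comp h3).const_mul 2
    simpa using this
  have hs := s_tendsto.comp (tendsto_add_atTop_nat 1)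
  have h3 : Tendsto (fun k => Real.exp (s (k + 1)) / (1 - s (k + 1) ^ 2) ^ 2 - 1) atTop (𝓝 0) := by
    have h4 : Tendsto (fun k => Real.exp (s (k + 1))) atTop (𝓝 (Real.exp 0)) :=
      (Real.continuous_exp.tendsto 0).comp hs
    have h5 : Tendsto (fun k => (1 - s (k + 1) ^ 2) ^ 2) atTop (𝓝 ((1 - 0 ^ 2) ^ 2)) :=
      ((hs.pow 2).const_sub 1).pow 2
    have := (h4.div h5 (by norm_num)).sub_const 1
    simpa using this
  have := (h1.add h2).add h3
  rw [add_zero, add_zero] at this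
  exact this

lemma N_tendsto : Tendsto N atTop atTop := by
  have h1 : Tendsto (fun k => lam k / 2) atTop atTop := lam_tendsto.atTop_div_const (by norm_num)
  apply tendsto_atTop_mono _ h1
  intro k
  unfold N
  have h2 := s_pos k
  have h3 : s k ^ 2 ≤ 1 := pow_le_one₀ h2.le (s_le_one k)
  have h4 := lam_nonneg k
  apply div_le_div_of_nonneg_left h4 (by positivity)
  linarith

lemma graphProb_nonneg {Ω : Type} [MeasurableSpace Ω] (μ : Measure Ω) {W : Ω → Ω → ℝ}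
    (hW : IsGraphon W) (n : ℕ) (P : SimpleGraph (Fin n) → Prop) : 0 ≤ graphProb μ W n P := by
  unfold graphProb
  apply integral_nonneg
  intro X
  apply sum_nonneg
  intro G _
  split_ifs
  · exact condProb_nonneg _ hW.nonneg hW.le_one X G
  · exact le_rfl

theorem ham_tendsto :
    Tendsto (fun n => graphProb μ0 W0 n (fun G => G.IsHamiltonian)) atTop (𝓝 0) := by
  rw [Metric.tendsto_atTop]
  intro e he
  have h1 := eps_tendsto.eventually_lt_const he
  have h2 := lam_tendsto.eventually_ge_atTop (4 / 3)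
  obtain ⟨K, hK⟩ := (h1.and h2).exists_forall_of_atTop
  obtain ⟨n0, hn0⟩ := exists_nat_ge (N K)
  refine ⟨max 2 (n0 + 1), ?_⟩
  intro n hn
  have hn2 : 2 ≤ n := le_trans (le_max_left _ _) hn
  have hnN : N K ≤ n := hn0.trans (by exact_mod_cast (Nat.le_succ n0).trans ((le_max_right _ _).trans hn))
  -- the least `k ≥ K` with `n ≤ N (k + 1)`
  have hex : ∃ k, (n : ℝ) ≤ N (K + k + 1) := by
    have h3 := (N_tendsto.comp (tendsto_add_atTop_nat (K + 1))).eventually_ge_atTop (n : ℝ)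
    obtain ⟨k, hk⟩ := h3.exists
    refine ⟨k, ?_⟩
    simp only [Function.comp] at hk
    have : k + (K + 1) = K + k + 1 := by ring
    rwa [this] at hk
  classical
  have hfind := Nat.find_spec hex
  set k := Nat.find hex with hkdef
  have hlow : N (K + k) ≤ n := by
    rcases Nat.eq_zero_or_pos k with h0 | h0
    · rw [h0, add_zero]; exact hnN
    · have := Nat.find_min hex (m := k - 1) (by omega)
      push Not at this
      have e : K + (k - 1) + 1 = K + k := by omega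
      rw [e] at this
      exact this.le
  have hb := ham_window (K + k) (hK (K + k) (by omega)).2 n hn2 hlow hfind
  rw [Real.dist_eq, sub_zero, abs_of_nonneg (graphProb_nonneg _ isGraphon _ _)]
  exact lt_of_le_of_lt hb (hK (K + k) (by omega)).1

end Q299.Graphon
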