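import Pool.Agent.Q299.Graphon.Weights

/-!
# Second moment of the number of isolated vertices of a given type
-/

set_option linter.unusedSectionVars false

namespace Q299.Graphon

open Finset MeasureTheory

open scoped Classical

variable {n : ℕ} {Ω : Type}

/-- coordinate functions for one vertex -/
noncomputable def f1 (g : Ω → ℝ) (a : ℝ) (Λ : Set Ω) (i j : Fin n) : Ω → ℝ :=
  if j = i then Λ.indicator (fun _ => (1 : ℝ)) else fun x => 1 - a * g x

/-- coordinate functions for two vertices -/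
noncomputable def f2 (g : Ω → ℝ) (a : ℝ) (Λ : Set Ω) (i i' j : Fin n) : Ω → ℝ :=
  if j = i ∨ j = i' then Λ.indicator (fun _ => (1 : ℝ)) else fun x => (1 - a * g x) ^ 2

variable {g : Ω → ℝ} {a : ℝ} {Λ : Set Ω}

/-- indicator that `i` is isolated -/
noncomputable def iso (G : SimpleGraph (Fin n)) (i : Fin n) : ℝ :=
  if Disjoint (ed G) (star i) then 1 else 0

lemma iso_mul (G : SimpleGraph (Fin n)) (i i' : Fin n) :
    iso G i * iso G i' = if Disjoint (ed G) (star i ∪ star i') then 1 else 0 := by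
  unfold iso
  by_cases h1 : Disjoint (ed G) (star i) <;> by_cases h2 : Disjoint (ed G) (star i') <;>
    simp [disjoint_union_right, h1, h2]

lemma iso_sq (G : SimpleGraph (Fin n)) (i : Fin n) : iso G i * iso G i = iso G i := by
  unfold iso
  split_ifs <;> norm_num

lemma iso_of_connected (hn : 2 ≤ n) {G : SimpleGraph (Fin n)} (hG : G.Connected) (i : Fin n) :
    iso G i = 0 := by
  unfold iso
  rw [if_neg]
  rw [isolated_iff]
  intro h
  have : Nontrivial (Fin n) := Fin.nontrivial_iff_two_le.2 hn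
  obtain ⟨j, hj⟩ := hG.preconnected.exists_adj_of_nontrivial i
  exact h j hj

lemma sum_iso (hg : ∀ x ∈ Λ, g x = a) (X : Fin n → Ω) (i : Fin n) :
    Λ.indicator (fun _ => (1 : ℝ)) (X i) *
      ∑ G : SimpleGraph (Fin n), condProb (fun x y => g x * g y) X G * iso G i =
      ∏ j, f1 g a Λ i j (X j) := by
  unfold iso
  rw [sum_condProb _ _ _ (star_subset i),
    prod_star (fun k j => 1 - g (X k) * g (X j)) (fun k j => by ring) i,
    ← mul_prod_erase univ _ (mem_univ i)]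
  have h1 : f1 g a Λ i i = Λ.indicator (fun _ => (1 : ℝ)) := by unfold f1; rw [if_pos rfl]
  rw [h1]
  by_cases hX : X i ∈ Λ
  · congr 1
    apply prod_congr rfl
    intro j hj
    rw [mem_erase] at hj
    unfold f1
    rw [if_neg hj.1, hg _ hX]
  · rw [Set.indicator_of_notMem hX, zero_mul, zero_mul]

lemma sum_iso2 (hg : ∀ x ∈ Λ, g x = a) (X : Fin n → Ω) (i i' : Fin n) (hne : i ≠ i') :
    Λ.indicator (fun _ => (1 : ℝ)) (X i) * Λ.indicator (fun _ => (1 : ℝ)) (X i') *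
      ∑ G : SimpleGraph (Fin n), condProb (fun x y => g x * g y) X G * (iso G i * iso G i') =
      (1 - a ^ 2) * ∏ j, f2 g a Λ i i' j (X j) := by
  simp_rw [iso_mul]
  rw [sum_condProb _ _ _ (union_subset (star_subset i) (star_subset i')),
    prod_two_stars (fun k j => 1 - g (X k) * g (X j)) (fun k j => by ring) i i' hne,
    ← mul_prod_erase univ _ (mem_univ i),
    ← mul_prod_erase (univ.erase i) _ (mem_erase.2 ⟨hne.symm, mem_univ i'⟩)]
  have h1 : f2 g a Λ i i' i = Λ.indicator (fun _ => (1 : ℝ)) := by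
    unfold f2; rw [if_pos (Or.inl rfl)]
  have h2 : f2 g a Λ i i' i' = Λ.indicator (fun _ => (1 : ℝ)) := by
    unfold f2; rw [if_pos (Or.inr rfl)]
  rw [h1, h2]
  by_cases hX : X i ∈ Λ
  · by_cases hX' : X i' ∈ Λ
    · have h3 : ∏ j ∈ (univ.erase i).erase i', ((1 - g (X i) * g (X j)) * (1 - g (X i') * g (X j))) =
          ∏ j ∈ (univ.erase i).erase i', f2 g a Λ i i' j (X j) := by
        apply prod_congr rfl
        intro j hj
        rw [mem_erase, mem_erase] at hj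
        unfold f2
        rw [if_neg (by tauto), hg _ hX, hg _ hX', sq]
      rw [h3, hg _ hX, hg _ hX']
      ring
    · rw [Set.indicator_of_notMem hX']
      ring
  · rw [Set.indicator_of_notMem hX]
    ring

variable [MeasurableSpace Ω] {μ : Measure Ω} [IsProbabilityMeasure μ]

lemma integrable_bdd {f : Ω → ℝ} (hf : Measurable f) (C : ℝ) (h : ∀ x, |f x| ≤ C) : Integrable f μ :=
  Integrable.of_bound hf.aestronglyMeasurable C (Filter.Eventually.of_forall h)

lemma integrable_ind1 (hΛ : MeasurableSet Λ) : Integrable (Λ.indicator (fun _ => (1 : ℝ))) μ :=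
  (integrable_const 1).indicator hΛ

lemma measurable_fac (hgm : Measurable g) : Measurable (fun x => 1 - a * g x) :=
  measurable_const.sub (hgm.const_mul a)

lemma abs_fac (hg0 : ∀ x, 0 ≤ g x) (hg1 : ∀ x, g x ≤ 1) (ha0 : 0 ≤ a) (ha1 : a ≤ 1) (x : Ω) :
    |1 - a * g x| ≤ 1 := by
  have h1 : 0 ≤ a * g x := mul_nonneg ha0 (hg0 x)
  have h2 : a * g x ≤ 1 := by nlinarith [hg0 x, hg1 x]
  rw [abs_le]
  constructor <;> linarith

lemma integrable_f1 (hΛ : MeasurableSet Λ) (hgm : Measurable g) (hg0 : ∀ x, 0 ≤ g x)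
    (hg1 : ∀ x, g x ≤ 1) (ha0 : 0 ≤ a) (ha1 : a ≤ 1) (i j : Fin n) :
    Integrable (f1 g a Λ i j) μ := by
  unfold f1
  split_ifs
  · exact integrable_ind1 hΛ
  · exact integrable_bdd (measurable_fac hgm) 1 (abs_fac hg0 hg1 ha0 ha1)

lemma integrable_f2 (hΛ : MeasurableSet Λ) (hgm : Measurable g) (hg0 : ∀ x, 0 ≤ g x)
    (hg1 : ∀ x, g x ≤ 1) (ha0 : 0 ≤ a) (ha1 : a ≤ 1) (i i' j : Fin n) :
    Integrable (f2 g a Λ i i' j) μ := by
  unfold f2
  split_ifs
  · exact integrable_ind1 hΛ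
  · apply integrable_bdd ((measurable_fac hgm).pow_const 2) 1
    intro x
    rw [abs_pow]
    exact pow_le_one₀ (abs_nonneg _) (abs_fac hg0 hg1 ha0 ha1 x)

lemma integral_ind1 (hΛ : MeasurableSet Λ) :
    ∫ x, Λ.indicator (fun _ => (1 : ℝ)) x ∂μ = μ.real Λ := by
  rw [integral_indicator hΛ]
  simp

lemma integral_F1 (hΛ : MeasurableSet Λ) (i : Fin n) :
    ∫ X : Fin n → Ω, ∏ j, f1 g a Λ i j (X j) ∂(Measure.pi (fun _ => μ)) =
      μ.real Λ * (∫ x, (1 - a * g x) ∂μ) ^ (n - 1) := by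
  rw [integral_fintype_prod_eq_prod, ← mul_prod_erase univ _ (mem_univ i)]
  have h1 : f1 g a Λ i i = Λ.indicator (fun _ => (1 : ℝ)) := by unfold f1; rw [if_pos rfl]
  rw [h1, integral_ind1 hΛ]
  congr 1
  have h2 : ∀ j ∈ univ.erase i, ∫ x, f1 g a Λ i j x ∂μ = ∫ x, (1 - a * g x) ∂μ := by
    intro j hj
    rw [mem_erase] at hj
    unfold f1
    rw [if_neg hj.1]
  rw [prod_congr rfl h2, prod_const, card_erase_of_mem (mem_univ i), card_univ, Fintype.card_fin]

lemma integral_F2 (hΛ : MeasurableSet Λ) (i i' : Fin n) (hne : i ≠ i') :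
    ∫ X : Fin n → Ω, ∏ j, f2 g a Λ i i' j (X j) ∂(Measure.pi (fun _ => μ)) =
      μ.real Λ ^ 2 * (∫ x, (1 - a * g x) ^ 2 ∂μ) ^ (n - 2) := by
  rw [integral_fintype_prod_eq_prod, ← mul_prod_erase univ _ (mem_univ i),
    ← mul_prod_erase (univ.erase i) _ (mem_erase.2 ⟨hne.symm, mem_univ i'⟩)]
  have h1 : f2 g a Λ i i' i = Λ.indicator (fun _ => (1 : ℝ)) := by
    unfold f2; rw [if_pos (Or.inl rfl)]
  have h2 : f2 g a Λ i i' i' = Λ.indicator (fun _ => (1 : ℝ)) := by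
    unfold f2; rw [if_pos (Or.inr rfl)]
  rw [h1, h2, integral_ind1 hΛ, ← mul_assoc, ← sq]
  congr 1
  have h3 : ∀ j ∈ (univ.erase i).erase i', ∫ x, f2 g a Λ i i' j x ∂μ = ∫ x, (1 - a * g x) ^ 2 ∂μ := by
    intro j hj
    rw [mem_erase, mem_erase] at hj
    unfold f2
    rw [if_neg (by tauto)]
  rw [prod_congr rfl h3, prod_const, card_erase_of_mem (mem_erase.2 ⟨hne.symm, mem_univ i'⟩),
    card_erase_of_mem (mem_univ i), card_univ, Fintype.card_fin]
  rfl

/-- pointwise inequality -/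
lemma pointwise (hn : 2 ≤ n) (hg0 : ∀ x, 0 ≤ g x) (hg1 : ∀ x, g x ≤ 1)
    (hg : ∀ x ∈ Λ, g x = a) (c : ℝ) (X : Fin n → Ω) :
    ∑ G : SimpleGraph (Fin n), (if G.IsHamiltonian then condProb (fun x y => g x * g y) X G else 0) ≤
      1 - 2 * c * (∑ i, ∏ j, f1 g a Λ i j (X j)) + c ^ 2 * (∑ i, ∏ j, f1 g a Λ i j (X j) +
        ∑ i : Fin n, ∑ i' ∈ univ.erase i, (1 - a ^ 2) * ∏ j, f2 g a Λ i i' j (X j)) := by
  have hW0 : ∀ x y, 0 ≤ g x * g y := fun x y => mul_nonneg (hg0 x) (hg0 y)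
  have hW1 : ∀ x y, g x * g y ≤ 1 := fun x y => mul_le_one₀ (hg1 x) (hg0 y) (hg1 y)
  set cp := condProb (fun x y => g x * g y) X with hcp
  set d : Fin n → ℝ := fun i => Λ.indicator (fun _ => (1 : ℝ)) (X i) with hd
  have hdd : ∀ i, d i * d i = d i := by
    intro i
    simp only [hd, Set.indicator]
    split_ifs <;> norm_num
  have s0 : ∑ G : SimpleGraph (Fin n), cp G = 1 := by
    have := sum_condProb (fun x y => g x * g y) X ∅ (empty_subset _)
    simpa using this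
  have s1 : ∀ i, ∏ j, f1 g a Λ i j (X j) = ∑ G, cp G * (d i * iso G i) := by
    intro i
    rw [← sum_iso hg X i, mul_sum]
    apply sum_congr rfl
    intro G _
    simp only [hd, hcp]
    ring
  have s2 : ∀ i, ∀ i' ∈ univ.erase i, (1 - a ^ 2) * ∏ j, f2 g a Λ i i' j (X j) =
      ∑ G, cp G * ((d i * iso G i) * (d i' * iso G i')) := by
    intro i i' hi'
    rw [mem_erase] at hi'
    rw [← sum_iso2 hg X i i' (Ne.symm hi'.1), mul_sum]
    apply sum_congr rfl
    intro G _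
    simp only [hd, hcp]
    ring
  have s3 : ∑ i : Fin n, ∑ i' ∈ univ.erase i, (1 - a ^ 2) * ∏ j, f2 g a Λ i i' j (X j) =
      ∑ G, cp G * ∑ i : Fin n, ∑ i' ∈ univ.erase i, (d i * iso G i) * (d i' * iso G i') := by
    rw [sum_congr rfl (fun i _ => sum_congr rfl (s2 i))]
    simp_rw [mul_sum]
    rw [sum_congr rfl (fun i _ => sum_comm)]
    rw [sum_comm]
  have s4 : ∑ i, ∏ j, f1 g a Λ i j (X j) = ∑ G, cp G * ∑ i, d i * iso G i := by
    simp_rw [s1, mul_sum]
    rw [sum_comm]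
  rw [s3, s4]
  have s5 : 1 - 2 * c * (∑ G, cp G * ∑ i, d i * iso G i) + c ^ 2 * (∑ G, cp G * ∑ i, d i * iso G i +
      ∑ G, cp G * ∑ i : Fin n, ∑ i' ∈ univ.erase i, (d i * iso G i) * (d i' * iso G i')) =
      ∑ G, cp G * (1 - c * ∑ i, d i * iso G i) ^ 2 := by
    have s6 : 1 - 2 * c * (∑ G, cp G * ∑ i, d i * iso G i) + c ^ 2 *
        (∑ G, cp G * ∑ i, d i * iso G i +
        ∑ G, cp G * ∑ i : Fin n, ∑ i' ∈ univ.erase i, (d i * iso G i) * (d i' * iso G i')) =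
        ∑ G, cp G - 2 * c * (∑ G, cp G * ∑ i, d i * iso G i) + c ^ 2 *
        (∑ G, cp G * ∑ i, d i * iso G i +
        ∑ G, cp G * ∑ i : Fin n, ∑ i' ∈ univ.erase i, (d i * iso G i) * (d i' * iso G i')) := by
      rw [s0]
    rw [s6, mul_sum, ← sum_add_distrib, mul_sum, ← sum_sub_distrib, ← sum_add_distrib]
    apply sum_congr rfl
    intro G _
    have h1 : (∑ i, d i * iso G i) ^ 2 = ∑ i, d i * iso G i +
        ∑ i : Fin n, ∑ i' ∈ univ.erase i, (d i * iso G i) * (d i' * iso G i') := by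
      rw [sq, sum_mul_sum, ← sum_add_distrib]
      apply sum_congr rfl
      intro i _
      rw [← add_sum_erase univ _ (mem_univ i)]
      congr 1
      calc d i * iso G i * (d i * iso G i) = (d i * d i) * (iso G i * iso G i) := by ring
        _ = d i * iso G i := by rw [hdd, iso_sq]
    have h2 : (1 - c * ∑ i, d i * iso G i) ^ 2 = 1 - 2 * c * (∑ i, d i * iso G i) +
        c ^ 2 * (∑ i, d i * iso G i) ^ 2 := by ring
    rw [h2, h1]
    ring
  rw [s5]
  apply sum_le_sum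
  intro G _
  have hcp0 : 0 ≤ cp G := condProb_nonneg _ hW0 hW1 X G
  split_ifs with hH
  · have : ∑ i, d i * iso G i = 0 := by
      apply sum_eq_zero
      intro i _
      rw [iso_of_connected hn hH.connected, mul_zero]
    rw [this]
    simp
  · exact mul_nonneg hcp0 (sq_nonneg _)

/-- upper bound for the probability of a Hamilton cycle -/
theorem ham_le (hn : 2 ≤ n) (hΛ : MeasurableSet Λ) (hgm : Measurable g) (hg0 : ∀ x, 0 ≤ g x)
    (hg1 : ∀ x, g x ≤ 1) (ha0 : 0 ≤ a) (ha1 : a ≤ 1) (hg : ∀ x ∈ Λ, g x = a) (c : ℝ) :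
    graphProb μ (fun x y => g x * g y) n (fun G => G.IsHamiltonian) ≤
      1 - 2 * c * (n * (μ.real Λ * (∫ x, (1 - a * g x) ∂μ) ^ (n - 1))) +
      c ^ 2 * (n * (μ.real Λ * (∫ x, (1 - a * g x) ∂μ) ^ (n - 1)) +
        n * ((n - 1 : ℕ) * ((1 - a ^ 2) * (μ.real Λ ^ 2 * (∫ x, (1 - a * g x) ^ 2 ∂μ) ^ (n - 2))))) := by
  have hW0 : ∀ x y, 0 ≤ g x * g y := fun x y => mul_nonneg (hg0 x) (hg0 y)
  have hW1 : ∀ x y, g x * g y ≤ 1 := fun x y => mul_le_one₀ (hg1 x) (hg0 y) (hg1 y)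
  have i1 : ∀ i : Fin n, Integrable (fun X : Fin n → Ω => ∏ j, f1 g a Λ i j (X j))
      (Measure.pi (fun _ => μ)) := fun i =>
    Integrable.fintype_prod (fun j => integrable_f1 hΛ hgm hg0 hg1 ha0 ha1 i j)
  have i2 : ∀ i i' : Fin n, Integrable (fun X : Fin n → Ω => ∏ j, f2 g a Λ i i' j (X j))
      (Measure.pi (fun _ => μ)) := fun i i' =>
    Integrable.fintype_prod (fun j => integrable_f2 hΛ hgm hg0 hg1 ha0 ha1 i i' j)
  have j1 : Integrable (fun X : Fin n → Ω => ∑ i, ∏ j, f1 g a Λ i j (X j))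
      (Measure.pi (fun _ => μ)) := integrable_finsetSum _ (fun i _ => i1 i)
  have j2 : Integrable (fun X : Fin n → Ω => ∑ i : Fin n, ∑ i' ∈ univ.erase i,
      (1 - a ^ 2) * ∏ j, f2 g a Λ i i' j (X j)) (Measure.pi (fun _ => μ)) :=
    integrable_finsetSum _ (fun i _ => integrable_finsetSum _ (fun i' _ => (i2 i i').const_mul _))
  have k1 : ∫ X : Fin n → Ω, ∑ i, ∏ j, f1 g a Λ i j (X j) ∂(Measure.pi (fun _ => μ)) =
      n * (μ.real Λ * (∫ x, (1 - a * g x) ∂μ) ^ (n - 1)) := by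
    rw [integral_finsetSum _ (fun i _ => i1 i), sum_congr rfl (fun i _ => integral_F1 hΛ i),
      sum_const, card_univ, Fintype.card_fin, nsmul_eq_mul]
  have k2 : ∫ X : Fin n → Ω, ∑ i : Fin n, ∑ i' ∈ univ.erase i,
      (1 - a ^ 2) * ∏ j, f2 g a Λ i i' j (X j) ∂(Measure.pi (fun _ => μ)) =
      n * ((n - 1 : ℕ) * ((1 - a ^ 2) * (μ.real Λ ^ 2 * (∫ x, (1 - a * g x) ^ 2 ∂μ) ^ (n - 2)))) := by
    rw [integral_finsetSum _ (fun i _ => integrable_finsetSum _ (fun i' _ => (i2 i i').const_mul _))]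
    have : ∀ i : Fin n, ∫ X : Fin n → Ω, ∑ i' ∈ univ.erase i,
        (1 - a ^ 2) * ∏ j, f2 g a Λ i i' j (X j) ∂(Measure.pi (fun _ => μ)) =
        (n - 1 : ℕ) * ((1 - a ^ 2) * (μ.real Λ ^ 2 * (∫ x, (1 - a * g x) ^ 2 ∂μ) ^ (n - 2))) := by
      intro i
      rw [integral_finsetSum _ (fun i' _ => (i2 i i').const_mul _)]
      have h2 : ∀ i' ∈ univ.erase i, ∫ X : Fin n → Ω, (1 - a ^ 2) * ∏ j, f2 g a Λ i i' j (X j)
          ∂(Measure.pi (fun _ => μ)) =
          (1 - a ^ 2) * (μ.real Λ ^ 2 * (∫ x, (1 - a * g x) ^ 2 ∂μ) ^ (n - 2)) := by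
        intro i' hi'
        rw [mem_erase] at hi'
        rw [integral_const_mul, integral_F2 hΛ i i' (Ne.symm hi'.1)]
      rw [sum_congr rfl h2, sum_const, card_erase_of_mem (mem_univ i), card_univ, Fintype.card_fin,
        nsmul_eq_mul]
    rw [sum_congr rfl (fun i _ => this i), sum_const, card_univ, Fintype.card_fin, nsmul_eq_mul]
  have hR : Integrable (fun X : Fin n → Ω =>
      1 - 2 * c * (∑ i, ∏ j, f1 g a Λ i j (X j)) + c ^ 2 * (∑ i, ∏ j, f1 g a Λ i j (X j) +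
        ∑ i : Fin n, ∑ i' ∈ univ.erase i, (1 - a ^ 2) * ∏ j, f2 g a Λ i i' j (X j)))
      (Measure.pi (fun _ => μ)) :=
    ((integrable_const 1).sub (j1.const_mul _)).add ((j1.add j2).const_mul _)
  unfold graphProb
  refine le_trans (integral_mono_of_nonneg ?_ hR ?_) (le_of_eq ?_)
  · filter_upwards with X
    apply sum_nonneg
    intro G _
    split_ifs
    · exact condProb_nonneg _ hW0 hW1 X G
    · exact le_rfl
  · filter_upwards with X
    exact pointwise hn hg0 hg1 hg c X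
  · rw [← k2, ← k1]
    generalize hF : (fun X : Fin n → Ω => ∑ i, ∏ j, f1 g a Λ i j (X j)) = F at j1
    generalize hH : (fun X : Fin n → Ω => ∑ i : Fin n, ∑ i' ∈ univ.erase i,
      (1 - a ^ 2) * ∏ j, f2 g a Λ i i' j (X j)) = H at j2
    have hF' : ∀ X : Fin n → Ω, ∑ i, ∏ j, f1 g a Λ i j (X j) = F X := fun X => congrFun hF X
    have hH' : ∀ X : Fin n → Ω, ∑ i : Fin n, ∑ i' ∈ univ.erase i,
      (1 - a ^ 2) * ∏ j, f2 g a Λ i i' j (X j) = H X := fun X => congrFun hH X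
    simp_rw [hF', hH']
    have e1 : ∫ X, (1 - 2 * c * F X + c ^ 2 * (F X + H X)) ∂(Measure.pi (fun _ => μ)) =
        ∫ X, (1 - 2 * c * F X) ∂(Measure.pi (fun _ => μ)) +
        ∫ X, c ^ 2 * (F X + H X) ∂(Measure.pi (fun _ => μ)) :=
      integral_add ((integrable_const 1).sub (j1.const_mul _)) ((j1.add j2).const_mul _)
    have e2 : ∫ X, (1 - 2 * c * F X) ∂(Measure.pi (fun _ => μ)) =
        ∫ _X : Fin n → Ω, (1 : ℝ) ∂(Measure.pi (fun _ => μ)) -
        ∫ X, 2 * c * F X ∂(Measure.pi (fun _ => μ)) :=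
      integral_sub (integrable_const 1) (j1.const_mul _)
    have e3 : ∫ X, (F X + H X) ∂(Measure.pi (fun _ => μ)) =
        ∫ X, F X ∂(Measure.pi (fun _ => μ)) + ∫ X, H X ∂(Measure.pi (fun _ => μ)) :=
      integral_add j1 j2
    rw [e1, e2, integral_const_mul, integral_const_mul, e3]
    simp

end Q299.Graphon
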