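import Pool.Agent.Q299.Graphon.Moment

/-!
# The counterexample graphon
-/

set_option linter.unusedSectionVars false

namespace Q299.Graphon

open Finset MeasureTheory Filter Topology

/-- the levels -/
noncomputable def s : ℕ → ℝ
  | 0 => 1
  | k + 1 => s k ^ 2 / √(4 - Real.log (s k))

lemma s_pos_le (k : ℕ) : 0 < s k ∧ s k ≤ 1 := by
  induction k with
  | zero => exact ⟨one_pos, le_rfl⟩
  | succ k ih =>
    have hlog : Real.log (s k) ≤ 0 := Real.log_nonpos ih.1.le ih.2
    have h2 : (2 : ℝ) ≤ √(4 - Real.log (s k)) := by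
      apply Real.le_sqrt_of_sq_le
      linarith
    show 0 < s k ^ 2 / √(4 - Real.log (s k)) ∧ s k ^ 2 / √(4 - Real.log (s k)) ≤ 1
    constructor
    · exact div_pos (pow_pos ih.1 2) (by linarith)
    · rw [div_le_one (by linarith)]
      nlinarith [ih.1, ih.2]

lemma s_pos (k : ℕ) : 0 < s k := (s_pos_le k).1

lemma s_le_one (k : ℕ) : s k ≤ 1 := (s_pos_le k).2

/-- `λ_k = log (1 / s_k)` -/
noncomputable def lam (k : ℕ) : ℝ := -Real.log (s k)

lemma lam_nonneg (k : ℕ) : 0 ≤ lam k := by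
  unfold lam
  have := Real.log_nonpos (s_pos k).le (s_le_one k)
  linarith

lemma s_succ (k : ℕ) : s (k + 1) = s k ^ 2 / √(4 + lam k) := by
  show s k ^ 2 / √(4 - Real.log (s k)) = _
  unfold lam
  rw [sub_eq_add_neg]

lemma two_le_sqrt (k : ℕ) : 2 ≤ √(4 + lam k) := by
  apply Real.le_sqrt_of_sq_le
  linarith [lam_nonneg k]

lemma s_succ_le (k : ℕ) : s (k + 1) ≤ s k / 2 := by
  rw [s_succ]
  have h1 := two_le_sqrt k
  have h2 := s_pos k
  have h3 := s_le_one k
  calc s k ^ 2 / √(4 + lam k) ≤ s k ^ 2 / 2 := by gcongr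
    _ ≤ s k / 2 := by nlinarith

lemma s_anti : Antitone s := by
  apply antitone_nat_of_succ_le
  intro k
  have := s_succ_le k
  have := s_pos k
  linarith

lemma s_le_pow (k : ℕ) : s k ≤ (1 / 2) ^ k := by
  induction k with
  | zero => simp [s]
  | succ k ih =>
    have := s_succ_le k
    rw [pow_succ]
    linarith

lemma s_tendsto : Tendsto s atTop (𝓝 0) :=
  tendsto_of_tendsto_of_tendsto_of_le_of_le tendsto_const_nhds
    (tendsto_pow_atTop_nhds_zero_of_lt_one (by norm_num) (by norm_num))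
    (fun k => (s_pos k).le) s_le_pow

lemma lam_tendsto : Tendsto lam atTop atTop := by
  have h1 : Tendsto s atTop (𝓝[>] 0) := by
    rw [tendsto_nhdsWithin_iff]
    exact ⟨s_tendsto, Eventually.of_forall fun k => s_pos k⟩
  have := Real.tendsto_log_nhdsGT_zero.comp h1
  exact tendsto_neg_atBot_atTop.comp this

lemma ex_lev (x : ℝ) : ∃ k, s (k + 1) < x ∨ x ≤ 0 := by
  by_cases hx : x ≤ 0
  · exact ⟨0, Or.inr hx⟩
  · push Not at hx
    obtain ⟨k, hk⟩ := ((s_tendsto.comp (tendsto_add_atTop_nat 1)).eventually_lt_const hx).exists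
    exact ⟨k, Or.inl hk⟩

open Classical in
/-- level of a point -/
noncomputable def lev (x : ℝ) : ℕ := Nat.find (ex_lev x)

/-- the function `g` -/
noncomputable def gg (x : ℝ) : ℝ := s (lev x) ^ 2

lemma gg_pos (x : ℝ) : 0 < gg x := pow_pos (s_pos _) 2

lemma gg_le_one (x : ℝ) : gg x ≤ 1 := pow_le_one₀ (s_pos _).le (s_le_one _)

lemma measurable_gg : Measurable gg := by
  classical
  have h1 : Measurable lev := by
    unfold lev
    apply measurable_find
    intro k
    exact (measurableSet_Ioi (a := s (k + 1))).union (measurableSet_Iic (a := (0 : ℝ)))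
  have h2 : Measurable (fun k : ℕ => s k ^ 2) := measurable_from_nat
  exact h2.comp h1

lemma gg_ge (k : ℕ) (x : ℝ) (hx : s (k + 1) < x) : s k ^ 2 ≤ gg x := by
  classical
  have h1 : lev x ≤ k := Nat.find_min' _ (Or.inl hx)
  exact pow_le_pow_left₀ (s_pos k).le (s_anti h1) 2

lemma gg_eq (k : ℕ) (x : ℝ) (hx : x ∈ Set.Ioc (s (k + 1)) (s k)) : gg x = s k ^ 2 := by
  classical
  have h1 : lev x = k := by
    unfold lev
    rw [Nat.find_eq_iff]
    refine ⟨Or.inl hx.1, ?_⟩
    intro j hj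
    push Not
    constructor
    · exact hx.2.trans (s_anti hj)
    · exact (s_pos _).trans hx.1
  unfold gg
  rw [h1]

/-- the probability space -/
noncomputable def μ0 : Measure ℝ := volume.restrict (Set.Ioc 0 1)

instance : IsProbabilityMeasure μ0 := ⟨by simp [μ0]⟩

instance : NullSingletonClass μ0 := by
  unfold μ0
  infer_instance

/-- the graphon -/
noncomputable def W0 (x y : ℝ) : ℝ := gg x * gg y

lemma W0_pos (x y : ℝ) : 0 < W0 x y := mul_pos (gg_pos x) (gg_pos y)

lemma measurable_W0 : Measurable (Function.uncurry W0) :=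
  (measurable_gg.comp measurable_fst).mul (measurable_gg.comp measurable_snd)

theorem isGraphon : IsGraphon W0 := by
  refine ⟨measurable_W0, fun x y => mul_comm _ _, fun x y => (W0_pos x y).le, fun x y => ?_⟩
  exact mul_le_one₀ (gg_le_one x) (gg_pos y).le (gg_le_one y)

lemma integrable_gg : Integrable gg μ0 :=
  integrable_bdd measurable_gg 1 (fun x => by
    rw [abs_of_pos (gg_pos x)]
    exact gg_le_one x)

/-- mean of `g` -/
noncomputable def m : ℝ := ∫ x, gg x ∂μ0

lemma m_le_one : m ≤ 1 := by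
  have h : m ≤ ∫ _x : ℝ, (1 : ℝ) ∂μ0 := integral_mono integrable_gg (integrable_const 1) gg_le_one
  simpa using h

lemma half_le_m : 1 / 2 ≤ m := by
  have hs1 : s 1 = 1 / 2 := by
    have h2 : s 1 = s 0 ^ 2 / √(4 + lam 0) := s_succ 0
    rw [h2]
    have h0 : s 0 = 1 := rfl
    have h1 : lam 0 = 0 := by unfold lam; rw [h0]; simp
    rw [h0, h1]
    have : √((4 : ℝ) + 0) = 2 := by
      rw [show (4 : ℝ) + 0 = 2 ^ 2 by norm_num]
      exact Real.sqrt_sq (by norm_num)
    rw [this]
    norm_num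
  have h1 : ∫ x, (Set.Ioc (1 / 2 : ℝ) 1).indicator (fun _ => (1 : ℝ)) x ∂μ0 ≤ m := by
    apply integral_mono ((integrable_const 1).indicator measurableSet_Ioc) integrable_gg
    intro x
    simp only [Set.indicator]
    split_ifs with h
    · have := gg_eq 0 x (by rw [zero_add, hs1]; exact h)
      rw [this]
      have h0 : s 0 = 1 := rfl
      rw [h0]
      norm_num
    · exact (gg_pos x).le
  rw [integral_ind1 measurableSet_Ioc] at h1
  have h2 : μ0.real (Set.Ioc (1 / 2 : ℝ) 1) = 1 / 2 := by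
    unfold μ0
    rw [measureReal_restrict_apply measurableSet_Ioc]
    have : Set.Ioc (1 / 2 : ℝ) 1 ∩ Set.Ioc 0 1 = Set.Ioc (1 / 2 : ℝ) 1 := by
      ext x
      simp only [Set.mem_inter_iff, Set.mem_Ioc]
      constructor
      · exact fun h => h.1
      · exact fun h => ⟨h, by linarith [h.1], h.2⟩
    rw [this, Measure.real, Real.volume_Ioc]
    norm_num
  linarith

lemma real_level (k : ℕ) : μ0.real (Set.Ioc (s (k + 1)) (s k)) = s k - s (k + 1) := by
  unfold μ0
  rw [measureReal_restrict_apply measurableSet_Ioc]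
  have : Set.Ioc (s (k + 1)) (s k) ∩ Set.Ioc 0 1 = Set.Ioc (s (k + 1)) (s k) := by
    ext x
    simp only [Set.mem_inter_iff, Set.mem_Ioc]
    constructor
    · exact fun h => h.1
    · exact fun h => ⟨h, by linarith [h.1, s_pos (k + 1)], h.2.trans (s_le_one k)⟩
  rw [this, Measure.real, Real.volume_Ioc, ENNReal.toReal_ofReal]
  have := s_anti (Nat.le_succ k)
  simp only [Nat.succ_eq_add_one] at this
  linarith

/-! ### The four conditions fail -/

lemma abs_W0 (z : ℝ × ℝ) : ‖W0 z.1 z.2‖ ≤ 1 := by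
  rw [Real.norm_of_nonneg (W0_pos _ _).le]
  exact isGraphon.le_one _ _

lemma integrable_W0 : Integrable (fun z : ℝ × ℝ => W0 z.1 z.2) (μ0.prod μ0) := by
  have h1 : AEStronglyMeasurable (fun z : ℝ × ℝ => W0 z.1 z.2) (μ0.prod μ0) :=
    measurable_W0.aestronglyMeasurable
  exact Integrable.of_bound h1 1 (Eventually.of_forall abs_W0)

theorem connected : Connected μ0 W0 := by
  intro S hS h1 h2
  have hint : IntegrableOn (fun z : ℝ × ℝ => W0 z.1 z.2) (S ×ˢ Sᶜ) (μ0.prod μ0) :=
    integrable_W0.integrableOn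
  have hnn : 0 ≤ᵐ[(μ0.prod μ0).restrict (S ×ˢ Sᶜ)] (fun z : ℝ × ℝ => W0 z.1 z.2) :=
    Eventually.of_forall fun z => (W0_pos z.1 z.2).le
  rw [setIntegral_pos_iff_support_of_nonneg_ae hnn hint]
  have hsupp : Function.support (fun z : ℝ × ℝ => W0 z.1 z.2) = Set.univ := by
    rw [Set.eq_univ_iff_forall]
    intro z
    exact (W0_pos z.1 z.2).ne'
  rw [hsupp, Set.univ_inter, Measure.prod_prod]
  exact ENNReal.mul_pos h1.ne' h2.ne'

lemma prod_zero {A B : Set ℝ}
    (h : ∀ᵐ z ∂(μ0.prod μ0), z.1 ∈ A → z.2 ∈ B → W0 z.1 z.2 = 0) : μ0 A * μ0 B = 0 := by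
  rw [← Measure.prod_prod]
  refine measure_mono_null ?_ (ae_iff.1 h)
  rintro z ⟨hz1, hz2⟩ hcon
  exact (W0_pos z.1 z.2).ne' (hcon hz1 hz2)

theorem not_narrow : ¬ NarrowPeninsula μ0 W0 := by
  rintro ⟨a, A, B, ha, _, _, _, _, hA, _, h⟩
  have h1 := prod_zero (A := A) (B := A) (h.mono fun z hz h1 h2 => hz h1 (Or.inl h2))
  have h2 : μ0 A ≠ 0 := by
    intro h0
    rw [Measure.real, h0] at hA
    simp at hA
    linarith
  exact (mul_ne_zero h2 h2) h1

theorem not_bip : ¬ BalancedBipartite μ0 W0 := by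
  rintro ⟨S, _, hS, _, h⟩
  have h1 := prod_zero (A := S) (B := S) (h.mono fun z hz h1 h2 => hz (Or.inl ⟨h1, h2⟩))
  have h2 : μ0 S ≠ 0 := by
    intro h0
    rw [Measure.real, h0] at hS
    simp at hS
  exact (mul_ne_zero h2 h2) h1

lemma deg_eq (x : ℝ) : deg μ0 W0 x = gg x * m := by
  unfold deg W0 m
  rw [integral_const_mul]

theorem not_many : ¬ ManyLowDeg μ0 W0 := by
  intro h
  unfold ManyLowDeg at h
  have hm := half_le_m
  set α : ℕ → ℝ := fun k => s k ^ 2 * m / 2 with hα
  have hα0 : ∀ k, 0 < α k := by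
    intro k
    have := pow_pos (s_pos k) 2
    have : 0 < s k ^ 2 * m := mul_pos this (by linarith)
    simp only [hα]
    linarith
  have hα1 : Tendsto α atTop (𝓝[>] 0) := by
    rw [tendsto_nhdsWithin_iff]
    refine ⟨?_, Eventually.of_forall hα0⟩
    have := ((s_tendsto.pow 2).mul_const (m / 2))
    simp only [ne_eq, OfNat.ofNat_ne_zero, not_false_eq_true, zero_pow, zero_mul] at this
    refine this.congr fun k => ?_
    simp only [hα]
    ring
  have h2 := (h.comp hα1).eventually_gt_atTop 2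
  obtain ⟨k, hk⟩ := h2.exists
  simp only [Function.comp] at hk
  have h3 : μ0.real (lowDeg μ0 W0 (α k)) ≤ s (k + 1) := by
    have hsub : lowDeg μ0 W0 (α k) ⊆ Set.Iic (s (k + 1)) := by
      intro x hx
      unfold lowDeg at hx
      rw [Set.mem_ofPred_eq, deg_eq] at hx
      rw [Set.mem_Iic]
      by_contra hcon
      push Not at hcon
      have h4 := gg_ge k x hcon
      have h5 : s k ^ 2 * m ≤ gg x * m := mul_le_mul_of_nonneg_right h4 (by linarith)
      have h6 := hα0 k
      simp only [hα] at hx h6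
      linarith
    refine (measureReal_mono hsub).trans ?_
    unfold μ0
    rw [measureReal_restrict_apply measurableSet_Iic]
    have : Set.Iic (s (k + 1)) ∩ Set.Ioc 0 1 ⊆ Set.Ioc 0 (s (k + 1)) := by
      intro x hx
      exact ⟨hx.2.1, hx.1⟩
    refine (measureReal_mono this (by simp)).trans ?_
    rw [Measure.real, Real.volume_Ioc, ENNReal.toReal_ofReal (by linarith [s_pos (k + 1)])]
    linarith
  have h4 : s (k + 1) / α k ≤ 2 := by
    rw [div_le_iff₀ (hα0 k), s_succ]
    have h5 := two_le_sqrt k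
    have h6 := pow_pos (s_pos k) 2
    calc s k ^ 2 / √(4 + lam k) ≤ s k ^ 2 / 2 := by gcongr
      _ ≤ 2 * α k := by
          simp only [hα]
          nlinarith
  have h5 : μ0.real (lowDeg μ0 W0 (α k)) / α k ≤ s (k + 1) / α k :=
    div_le_div_of_nonneg_right h3 (hα0 k).le
  linarith

end Q299.Graphon
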