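import Pool.Agent.Q299.Graphon.Defs

/-!
# Inhomogeneous random graphs: probability of missing a given set of edges
-/

namespace Q299.Graphon

open Finset

open scoped Classical

variable {n : ℕ}

lemma mem_pairs {e : Fin n × Fin n} : e ∈ pairs n ↔ e.1 < e.2 := by simp [pairs]

/-- the edges of a graph as ordered pairs -/
noncomputable def ed (G : SimpleGraph (Fin n)) : Finset (Fin n × Fin n) :=
  (pairs n).filter (fun e => G.Adj e.1 e.2)

/-- the graph of a set of pairs -/
def gr (S : Finset (Fin n × Fin n)) : SimpleGraph (Fin n) := SimpleGraph.fromRel (fun i j => (i, j) ∈ S)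

lemma ed_gr {S : Finset (Fin n × Fin n)} (hS : S ⊆ pairs n) : ed (gr S) = S := by
  ext ⟨i, j⟩
  have h0 : (i, j) ∈ ed (gr S) ↔ i < j ∧ (i ≠ j ∧ ((i, j) ∈ S ∨ (j, i) ∈ S)) := by
    unfold ed gr
    simp only [mem_filter, mem_pairs, SimpleGraph.fromRel_adj]
  rw [h0]
  constructor
  · rintro ⟨h, _, h2 | h2⟩
    · exact h2
    · have := mem_pairs.1 (hS h2)
      simp only at this h
      exact absurd h (not_lt.2 this.le)
  · intro h
    have := mem_pairs.1 (hS h)
    exact ⟨this, this.ne, Or.inl h⟩

lemma gr_ed (G : SimpleGraph (Fin n)) : gr (ed G) = G := by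
  ext i j
  unfold ed gr
  rw [SimpleGraph.fromRel_adj]
  simp only [mem_filter, mem_pairs]
  constructor
  · rintro ⟨_, ⟨_, h⟩ | ⟨_, h⟩⟩
    · exact h
    · exact h.symm
  · intro h
    refine ⟨h.ne, ?_⟩
    rcases lt_or_gt_of_ne h.ne with h1 | h1
    · exact Or.inl ⟨h1, h⟩
    · exact Or.inr ⟨h1, h.symm⟩

/-- sums over graphs as sums over sets of pairs -/
lemma sum_graph (F : Finset (Fin n × Fin n) → ℝ) :
    ∑ G : SimpleGraph (Fin n), F (ed G) = ∑ S ∈ (pairs n).powerset, F S := by
  refine sum_nbij' (fun G => ed G) (fun S => gr S) ?_ ?_ ?_ ?_ ?_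
  · intro G _
    rw [mem_powerset]
    exact filter_subset _ _
  · intro S _; exact mem_univ _
  · intro G _; exact gr_ed G
  · intro S hS
    exact ed_gr (mem_powerset.1 hS)
  · intro G _; rfl

lemma sum_weights {α : Type} [DecidableEq α] (P D : Finset α) (hD : D ⊆ P) (p : α → ℝ) :
    ∑ S ∈ P.powerset, (∏ e ∈ P, if e ∈ S then p e else 1 - p e) *
      (if Disjoint S D then 1 else 0) = ∏ e ∈ D, (1 - p e) := by
  have h1 : ∀ S ∈ P.powerset, (∏ e ∈ P, if e ∈ S then p e else 1 - p e) *
      (if Disjoint S D then (1 : ℝ) else 0) =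
      (∏ e ∈ S, if e ∈ D then 0 else p e) * (∏ e ∈ P \ S, (1 - p e)) := by
    intro S hS
    rw [mem_powerset] at hS
    have e1 : (∏ e ∈ P, if e ∈ S then p e else 1 - p e) =
        (∏ e ∈ S, p e) * (∏ e ∈ P \ S, (1 - p e)) := by
      rw [← prod_sdiff hS, mul_comm]
      congr 1
      · apply prod_congr rfl
        intro e he
        rw [if_pos he]
      · apply prod_congr rfl
        intro e he
        rw [if_neg (mem_sdiff.1 he).2]
    rw [e1]
    split_ifs with h
    · rw [mul_one]
      congr 1
      apply prod_congr rfl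
      intro e he
      rw [if_neg (fun hd => disjoint_left.1 h he hd)]
    · rw [mul_zero]
      rw [not_disjoint_iff] at h
      obtain ⟨e, he, hd⟩ := h
      rw [prod_eq_zero he (by rw [if_pos hd]), zero_mul]
  rw [sum_congr rfl h1, ← prod_add]
  rw [← prod_sdiff hD]
  have e2 : ∏ e ∈ P \ D, ((if e ∈ D then 0 else p e) + (1 - p e)) = 1 := by
    apply prod_eq_one
    intro e he
    rw [if_neg (mem_sdiff.1 he).2]
    ring
  rw [e2, one_mul]
  apply prod_congr rfl
  intro e he
  rw [if_pos he, zero_add]

variable {Ω : Type} (W : Ω → Ω → ℝ)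

lemma condProb_eq (X : Fin n → Ω) (G : SimpleGraph (Fin n)) :
    condProb W X G = ∏ e ∈ pairs n, if e ∈ ed G then W (X e.1) (X e.2) else 1 - W (X e.1) (X e.2) := by
  unfold condProb
  apply prod_congr rfl
  intro e he
  have : e ∈ ed G ↔ G.Adj e.1 e.2 := by
    unfold ed
    rw [mem_filter]
    exact ⟨fun h => h.2, fun h => ⟨he, h⟩⟩
  simp only [this]

theorem sum_condProb (X : Fin n → Ω) (D : Finset (Fin n × Fin n)) (hD : D ⊆ pairs n) :
    ∑ G : SimpleGraph (Fin n), condProb W X G * (if Disjoint (ed G) D then 1 else 0) =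
      ∏ e ∈ D, (1 - W (X e.1) (X e.2)) := by
  rw [← sum_weights (pairs n) D hD (fun e => W (X e.1) (X e.2)), ← sum_graph]
  apply sum_congr rfl
  intro G _
  rw [condProb_eq]

theorem condProb_nonneg (h0 : ∀ x y, 0 ≤ W x y) (h1 : ∀ x y, W x y ≤ 1) (X : Fin n → Ω)
    (G : SimpleGraph (Fin n)) : 0 ≤ condProb W X G := by
  unfold condProb
  apply prod_nonneg
  intro e _
  split_ifs
  · exact h0 _ _
  · linarith [h1 (X e.1) (X e.2)]

/-- the pairs that contain `i` -/
def star (i : Fin n) : Finset (Fin n × Fin n) := (pairs n).filter (fun e => e.1 = i ∨ e.2 = i)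

lemma star_subset (i : Fin n) : star i ⊆ pairs n := filter_subset _ _

lemma isolated_iff (G : SimpleGraph (Fin n)) (i : Fin n) :
    Disjoint (ed G) (star i) ↔ ∀ j, ¬ G.Adj i j := by
  constructor
  · intro h j hj
    rcases lt_or_gt_of_ne hj.ne with h1 | h1
    · have e1 : (i, j) ∈ ed G := by
        unfold ed; rw [mem_filter, mem_pairs]; exact ⟨h1, hj⟩
      have e2 : (i, j) ∈ star i := by
        unfold star; rw [mem_filter, mem_pairs]; exact ⟨h1, Or.inl rfl⟩
      exact disjoint_left.1 h e1 e2
    · have e1 : (j, i) ∈ ed G := by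
        unfold ed; rw [mem_filter, mem_pairs]; exact ⟨h1, hj.symm⟩
      have e2 : (j, i) ∈ star i := by
        unfold star; rw [mem_filter, mem_pairs]; exact ⟨h1, Or.inr rfl⟩
      exact disjoint_left.1 h e1 e2
  · intro h
    rw [disjoint_left]
    rintro ⟨a, b⟩ he hs
    unfold ed at he
    unfold star at hs
    rw [mem_filter] at he hs
    rcases hs.2 with h1 | h1
    · simp only at h1
      subst h1
      exact h _ he.2
    · simp only at h1
      subst h1
      exact h _ he.2.symm

/-- product over a star -/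
lemma prod_star (f : Fin n → Fin n → ℝ) (hf : ∀ i j, f i j = f j i) (i : Fin n) :
    ∏ e ∈ star i, f e.1 e.2 = ∏ j ∈ univ.erase i, f i j := by
  symm
  refine prod_nbij' (fun j => (min i j, max i j)) (fun e => if e.1 = i then e.2 else e.1) ?_ ?_ ?_ ?_ ?_
  · intro j hj
    rw [mem_erase] at hj
    unfold star
    rw [mem_filter, mem_pairs]
    rcases lt_or_gt_of_ne hj.1 with h | h
    · simp only [min_eq_right h.le, max_eq_left h.le]
      exact ⟨h, Or.inr trivial⟩
    · simp only [min_eq_left h.le, max_eq_right h.le]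
      exact ⟨h, Or.inl trivial⟩
  · intro e he
    unfold star at he
    rw [mem_filter, mem_pairs] at he
    rw [mem_erase]
    refine ⟨?_, mem_univ _⟩
    split_ifs with h
    · rw [← h]; exact he.1.ne'
    · exact h
  · intro j hj
    rw [mem_erase] at hj
    rcases lt_or_gt_of_ne hj.1 with h | h
    · simp only [min_eq_right h.le, max_eq_left h.le, if_neg hj.1]
    · simp only [min_eq_left h.le, max_eq_right h.le, if_true]
  · intro e he
    unfold star at he
    rw [mem_filter, mem_pairs] at he
    obtain ⟨h1, h2⟩ := he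
    by_cases h : e.1 = i
    · simp only [if_pos h]
      rw [← h, min_eq_left h1.le, max_eq_right h1.le]
    · have h3 := h2.resolve_left h
      simp only [if_neg h]
      rw [← h3, min_eq_right h1.le, max_eq_left h1.le]
  · intro j hj
    rw [mem_erase] at hj
    rcases lt_or_gt_of_ne hj.1 with h | h
    · simp only [min_eq_right h.le, max_eq_left h.le]
      exact hf _ _
    · simp only [min_eq_left h.le, max_eq_right h.le]

/-- product over the union of two stars -/
lemma prod_two_stars (f : Fin n → Fin n → ℝ) (hf : ∀ i j, f i j = f j i) (i i' : Fin n)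
    (hne : i ≠ i') : ∏ e ∈ star i ∪ star i', f e.1 e.2 =
      f i i' * ∏ j ∈ (univ.erase i).erase i', (f i j * f i' j) := by
  have h1 : star i ∪ star i' = star i ∪ (star i').filter (fun e => ¬ (e.1 = i ∨ e.2 = i)) := by
    ext e
    simp only [mem_union, mem_filter, star]
    tauto
  have h2 : Disjoint (star i) ((star i').filter (fun e => ¬ (e.1 = i ∨ e.2 = i))) := by
    rw [disjoint_left]
    intro e he he'
    rw [mem_filter] at he'
    unfold star at he
    rw [mem_filter] at he
    exact he'.2 he.2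
  have h3 : ∏ e ∈ (star i').filter (fun e => ¬ (e.1 = i ∨ e.2 = i)), f e.1 e.2 =
      ∏ j ∈ (univ.erase i).erase i', f i' j := by
    have h4 := prod_star (fun a b => if (a = i ∨ b = i) then 1 else f a b) (by
      intro a b
      rw [hf a b]
      simp only [or_comm]) i'
    rw [prod_filter]
    have h5 : ∏ e ∈ star i', (if ¬ (e.1 = i ∨ e.2 = i) then f e.1 e.2 else 1) =
        ∏ e ∈ star i', (if (e.1 = i ∨ e.2 = i) then 1 else f e.1 e.2) := by
      apply prod_congr rfl
      intro e _
      by_cases h : e.1 = i ∨ e.2 = i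
      · rw [if_neg (not_not.2 h), if_pos h]
      · rw [if_pos h, if_neg h]
    rw [h5, h4, erase_right_comm]
    rw [← mul_prod_erase (univ.erase i') _ (mem_erase.2 ⟨hne, mem_univ i⟩)]
    simp only [or_true, if_true, one_mul]
    apply prod_congr rfl
    intro j hj
    rw [mem_erase] at hj
    rw [if_neg]
    rintro (h | h)
    · exact hne h.symm
    · exact hj.1 h
  rw [h1, prod_union h2, h3, prod_star f hf i,
    ← mul_prod_erase (univ.erase i) _ (mem_erase.2 ⟨hne.symm, mem_univ i'⟩), prod_mul_distrib]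
  ring

end Q299.Graphon
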